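import Pool.Agent.Run7.h827.HM.Mixed

set_option autoImplicit false
set_option linter.unusedSectionVars false
set_option linter.unusedVariables false

/-! # Northeast ideals of maximal minors: the chart -/

namespace Pool.Agent.Run7.h827.NE

open MvPowerSeries Pool.Agent.W574.SM Pool.Agent.Y231.RF Pool.Agent.R779.HK

/-- the pairs `(i, j)`, `i < m`, `i + j < n` -/
abbrev Cell (m n : ℕ) : Type := {q : Fin m × Fin n // (q.1 : ℕ) + q.2 < n}

/-- the minor of the first `i + 1` rows and the columns `j + J 0, …, j + J i` of the generic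
`m × n` matrix, `q = (i, j)` -/
noncomputable def nmin {m n : ℕ} (q : Cell m n) (J : Fin ((q.1.1 : ℕ) + 1) → Fin (n - q.1.2)) :
    MvPolynomial (Fin m × Fin n) ℂ :=
  (Matrix.of fun i j : Fin ((q.1.1 : ℕ) + 1) =>
    (MvPolynomial.X ((⟨i, by have := i.2; have := q.1.1.2; omega⟩ : Fin m),
      (⟨(q.1.2 : ℕ) + J j, by have := (J j).2; omega⟩ : Fin n)) :
      MvPolynomial (Fin m × Fin n) ℂ)).det

/-- The choices of `i + 1` of the columns `j, …, n - 1`, `q = (i, j)`. -/
def NI {m n : ℕ} (q : Cell m n) : Type := Fin ((q.1.1 : ℕ) + 1) ↪o Fin (n - q.1.2)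

noncomputable instance instFintypeNI {m n : ℕ} (q : Cell m n) : Fintype (NI q) :=
  inferInstanceAs (Fintype (Fin ((q.1.1 : ℕ) + 1) ↪o Fin (n - q.1.2)))

noncomputable instance instDecidableEqNI {m n : ℕ} (q : Cell m n) : DecidableEq (NI q) :=
  Classical.decEq _

/-- The generators of the northeast ideals: for `q = (i, j)` the maximal minors of the matrix of the
first `i + 1` rows and the last `n - j` columns of the generic `m × n` matrix. -/
noncomputable def neGen (m n : ℕ) (q : Cell m n) (J : NI q) : MvPolynomial (Fin m × Fin n) ℂ :=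
  nmin q fun j => (show Fin ((q.1.1 : ℕ) + 1) ↪o Fin (n - q.1.2) from J) j

theorem nmin_sort {m n : ℕ} (q : Cell m n) (J : Fin ((q.1.1 : ℕ) + 1) → Fin (n - q.1.2))
    (hJ : Function.Injective J) :
    ∃ (J0 : NI q) (e : ℂ), e * e = 1 ∧ nmin q J = e • neGen m n q J0 := by
  obtain ⟨r0, π, hr⟩ := exists_sort J hJ
  refine ⟨r0, ((Equiv.Perm.sign π : ℤ) : ℂ), ?_, ?_⟩
  · rcases Int.units_eq_one_or (Equiv.Perm.sign π) with h | h <;> rw [h] <;> simp
  · have h1 : (Matrix.of fun i j : Fin ((q.1.1 : ℕ) + 1) =>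
        (MvPolynomial.X ((⟨i, by have := i.2; have := q.1.1.2; omega⟩ : Fin m),
          (⟨(q.1.2 : ℕ) + J j, by have := (J j).2; omega⟩ : Fin n)) :
          MvPolynomial (Fin m × Fin n) ℂ))
        = (Matrix.of fun i j : Fin ((q.1.1 : ℕ) + 1) =>
        (MvPolynomial.X ((⟨i, by have := i.2; have := q.1.1.2; omega⟩ : Fin m),
          (⟨(q.1.2 : ℕ) + r0 j, by have := (r0 j).2; omega⟩ : Fin n)) :
          MvPolynomial (Fin m × Fin n) ℂ)).submatrix id π := by
      ext1 i j
      simp only [Matrix.submatrix_apply, Matrix.of_apply, id_eq]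
      simp only [hr j]
    rw [nmin, h1, Matrix.det_permute', Algebra.smul_def]
    simp only [map_intCast]
    rfl

theorem nmin_span {m n : ℕ} (q : Cell m n) (J : Fin ((q.1.1 : ℕ) + 1) → Fin (n - q.1.2)) :
    ∃ c : NI q → ℂ, nmin q J = ∑ j, c j • neGen m n q j := by
  classical
  by_cases hJ : Function.Injective J
  · obtain ⟨J0, e, _, he⟩ := nmin_sort q J hJ
    refine ⟨Pi.single J0 e, ?_⟩
    rw [he, Finset.sum_eq_single J0]
    · rw [Pi.single_eq_same]
    · intro j _ hj
      rw [Pi.single_eq_of_ne hj, zero_smul]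
    · intro h; exact absurd (Finset.mem_univ _) h
  · rw [Function.not_injective_iff] at hJ
    obtain ⟨i, j, hij, hne⟩ := hJ
    refine ⟨0, ?_⟩
    simp only [Pi.zero_apply, zero_smul, Finset.sum_const_zero]
    rw [nmin, ← Matrix.det_transpose]
    refine Matrix.det_zero_of_row_eq hne ?_
    funext k
    simp only [Matrix.transpose_apply, Matrix.of_apply, hij]

theorem aeval_nmin {m n : ℕ} (ξ : Fin m × Fin n → MvPowerSeries (Fin m × Fin n) ℂ) (q : Cell m n)
    (J : Fin ((q.1.1 : ℕ) + 1) → Fin (n - q.1.2)) :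
    MvPolynomial.aeval ξ (nmin q J) = (Matrix.of fun i j : Fin ((q.1.1 : ℕ) + 1) =>
      ξ ((⟨i, by have := i.2; have := q.1.1.2; omega⟩ : Fin m),
      (⟨(q.1.2 : ℕ) + J j, by have := (J j).2; omega⟩ : Fin n))).det := by
  rw [nmin, AlgHom.map_det]
  congr 1
  ext1 i j
  rw [AlgHom.mapMatrix_apply, Matrix.map_apply, Matrix.of_apply, Matrix.of_apply,
    MvPolynomial.aeval_X]

/-- a row which is a combination of the rows above it and of another row -/
theorem det_comb {R : Type} [CommRing R] {t : ℕ} (M : Matrix (Fin t) (Fin t) R) (s : Fin t)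
    (q : Fin (s : ℕ) → R) (z : R) (w : Fin t → R)
    (h : ∀ j, M s j = ∑ i : Fin (s : ℕ), q i * M ⟨i, i.2.trans s.2⟩ j + z * w j) :
    M.det = z * (M.updateRow s w).det := by
  classical
  let c : Fin t → R := fun k => if hk : (k : ℕ) < s then q ⟨k, hk⟩ else 0
  have h1 : M s = ∑ k, c k • M k + z • w := by
    funext j
    rw [h j, Pi.add_apply, Pi.smul_apply, smul_eq_mul, Finset.sum_apply]
    congr 1
    have h2 : ∀ k : Fin t, (c k • M k) j
        = if hk : (k : ℕ) < s then q ⟨k, hk⟩ * M k j else 0 := by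
      intro k
      rw [Pi.smul_apply, smul_eq_mul]
      simp only [c]
      split_ifs
      · rfl
      · rw [zero_mul]
    rw [Finset.sum_congr rfl fun k _ => h2 k]
    have h3 : ∑ k : Fin t, (if hk : (k : ℕ) < s then q ⟨k, hk⟩ * M k j else 0)
        = ∑ k ∈ Finset.univ.filter (fun k : Fin t => (k : ℕ) < s),
          (if hk : (k : ℕ) < s then q ⟨k, hk⟩ * M k j else 0) := by
      rw [Finset.sum_filter]
      refine Finset.sum_congr rfl fun k _ => ?_
      by_cases hk : (k : ℕ) < s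
      · rw [if_pos hk]
      · rw [if_neg hk, dif_neg hk]
    rw [h3]
    refine Finset.sum_bij (fun (i : Fin (s : ℕ)) _ => (⟨i, i.2.trans s.2⟩ : Fin t)) ?_ ?_ ?_ ?_
    · intro i _
      exact Finset.mem_filter.2 ⟨Finset.mem_univ _, i.2⟩
    · intro i _ i' _ hii
      have h6 : (i : ℕ) = i' := congrArg (fun x : Fin t => (x : ℕ)) hii
      exact Fin.ext h6
    · intro k hk
      exact ⟨⟨k, (Finset.mem_filter.1 hk).2⟩, Finset.mem_univ _, Fin.ext rfl⟩
    · intro i _
      rw [dif_pos i.2]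
  have h4 : M.det = (M.updateRow s (∑ k, c k • M k + z • w)).det := by
    rw [← h1, Matrix.updateRow_eq_self]
  rw [h4, Matrix.det_updateRow_add, Matrix.det_updateRow_sum, Matrix.det_updateRow_smul]
  have h5 : c s = 0 := by
    simp only [c]
    rw [dif_neg (lt_irrefl _)]
  rw [h5, zero_smul, zero_add]

section Chart

variable (m n s b : ℕ) (lam : ℂ)

/-- the base point -/
noncomputable def bs (r c : ℕ) : ℂ := if c + 1 + Equiv.swap s (n - b) r = n then lam else 0

/-- the free entries -/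
noncomputable def sx (r c : ℕ) : MvPowerSeries (Fin m × Fin n) ℂ :=
  if h : r < m ∧ c < n then C (bs n s b lam r c) + X (⟨r, h.1⟩, ⟨c, h.2⟩) else 0

theorem cc_sx {r c : ℕ} (hr : r < m) (hc : c < n) :
    constantCoeff (sx m n s b lam r c) = bs n s b lam r c := by
  rw [sx, dif_pos ⟨hr, hc⟩]
  simp

theorem der_sx (t : Fin m × Fin n) (r c : ℕ) (h : ¬ ((t.1 : ℕ) = r ∧ (t.2 : ℕ) = c)) :
    pderiv ℂ t (sx m n s b lam r c) = 0 := by
  unfold sx
  by_cases h1 : r < m ∧ c < n
  · rw [dif_pos h1, map_add, pderiv_C, zero_add, pderiv_X_of_ne]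
    intro h2
    apply h
    rw [← h2]
    exact ⟨rfl, rfl⟩
  · rw [dif_neg h1, map_zero]

/-- the matrix of the rows above the row `s`, last columns -/
noncomputable def DM : Matrix (Fin s) (Fin s) (MvPowerSeries (Fin m × Fin n) ℂ) :=
  Matrix.of fun i j => sx m n s b lam i (n - 1 - j)

theorem bs_small {r c : ℕ} (hr : r < s) (hb : s + b < n) :
    bs n s b lam r c = if c + 1 + r = n then lam else 0 := by
  rw [bs, Equiv.swap_apply_of_ne_of_ne (by omega) (by omega)]

theorem bs_s (c : ℕ) : bs n s b lam s c = if c + 1 + (n - b) = n then lam else 0 := by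
  rw [bs, Equiv.swap_apply_left]

theorem cc_DM (hs : s < m) (hb : s + b < n) :
    (constantCoeff : MvPowerSeries (Fin m × Fin n) ℂ →+* ℂ).mapMatrix (DM m n s b lam)
      = Matrix.diagonal fun _ => lam := by
  ext i j
  have hi := i.2
  have hj := j.2
  rw [RingHom.mapMatrix_apply, Matrix.map_apply, DM, Matrix.of_apply,
    cc_sx m n s b lam (by omega) (by omega), bs_small n s b lam hi hb, Matrix.diagonal_apply]
  by_cases h : i = j
  · subst h
    rw [if_pos (by omega), if_pos rfl]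
  · rw [if_neg h, if_neg]
    intro h1
    exact h (Fin.ext (by omega))

theorem cc_det_DM (hs : s < m) (hb : s + b < n) :
    constantCoeff (DM m n s b lam).det = lam ^ s := by
  rw [RingHom.map_det, cc_DM m n s b lam hs hb, Matrix.det_diagonal, Finset.prod_const,
    Finset.card_univ, Fintype.card_fin]

theorem DM_unit (hs : s < m) (hb : s + b < n) (hl : lam ≠ 0) : IsUnit (DM m n s b lam).det := by
  rw [MvPowerSeries.isUnit_iff_constantCoeff, cc_det_DM m n s b lam hs hb]
  exact isUnit_iff_ne_zero.2 (pow_ne_zero _ hl)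

/-- the last entries of the row `s` -/
noncomputable def rhs : Fin s → MvPowerSeries (Fin m × Fin n) ℂ :=
  fun j => sx m n s b lam s (n - 1 - j)

/-- the coefficients of the combination of the rows -/
noncomputable def qv : Fin s → MvPowerSeries (Fin m × Fin n) ℂ :=
  Matrix.vecMul (rhs m n s b lam) (DM m n s b lam)⁻¹

theorem qv_DM (hs : s < m) (hb : s + b < n) (hl : lam ≠ 0) :
    Matrix.vecMul (qv m n s b lam) (DM m n s b lam) = rhs m n s b lam := by
  rw [qv, Matrix.vecMul_vecMul, Matrix.nonsing_inv_mul _ (DM_unit m n s b lam hs hb hl),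
    Matrix.vecMul_one]

theorem cc_qv (hs : s < m) (hb : s + b < n) (i : Fin s) :
    constantCoeff (qv m n s b lam i) = 0 := by
  rw [qv, Matrix.vecMul, dotProduct, map_sum]
  refine Finset.sum_eq_zero fun j _ => ?_
  have hj := j.2
  rw [map_mul, rhs, cc_sx m n s b lam hs (by omega), bs_s, if_neg (by omega), zero_mul]

theorem der_qv (hs : s < m) (hb : s + b < n) (hl : lam ≠ 0) (t : Fin m × Fin n)
    (ht : (t.1 : ℕ) = s) (ht2 : (t.2 : ℕ) + s < n) (i : Fin s) :
    pderiv ℂ t (qv m n s b lam i) = 0 := by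
  have h1 : Matrix.vecMul (fun i => pderiv ℂ t (qv m n s b lam i)) (DM m n s b lam) = 0 := by
    funext j
    have hj := j.2
    have h2 := congrArg (pderiv ℂ t) (congrFun (qv_DM m n s b lam hs hb hl) j)
    rw [rhs, der_sx m n s b lam t _ _ (by omega), Matrix.vecMul, dotProduct, map_sum] at h2
    rw [Matrix.vecMul, dotProduct, Pi.zero_apply, ← h2]
    refine Finset.sum_congr rfl fun i _ => ?_
    have hi := i.2
    rw [Derivation.leibniz, DM, Matrix.of_apply, der_sx m n s b lam t _ _ (by omega), smul_zero,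
      zero_add, smul_eq_mul, mul_comm]
  have h3 := congrArg (fun v => Matrix.vecMul v (DM m n s b lam)⁻¹) h1
  simp only [Matrix.vecMul_vecMul, Matrix.mul_nonsing_inv _ (DM_unit m n s b lam hs hb hl),
    Matrix.vecMul_one, Matrix.zero_vecMul] at h3
  exact congrFun h3 i

/-- the coordinates on the exceptional divisor -/
noncomputable def wS (c : ℕ) : MvPowerSeries (Fin m × Fin n) ℂ :=
  if c + 1 + s = n then 1 else if h : s < m ∧ c + 1 + s < n then
    X (⟨s, h.1⟩, ⟨c, by omega⟩) else 0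

theorem wS_z {c : ℕ} (hc : c + 1 + s = n) : wS m n s c = 1 := if_pos hc

theorem wS_big {c : ℕ} (hc : n ≤ c + s) : wS m n s c = 0 := by
  rw [wS, if_neg (by omega), dif_neg (by omega)]

theorem wS_other {c : ℕ} (hs : s < m) (hc : c + 1 + s < n) :
    wS m n s c = X (⟨s, hs⟩, ⟨c, by omega⟩) := by
  rw [wS, if_neg (by omega), dif_pos ⟨hs, hc⟩]

theorem cc_wS (c : ℕ) : constantCoeff (wS m n s c) = if c + 1 + s = n then 1 else 0 := by
  unfold wS
  split_ifs <;> simp

/-- the index of the equation of the divisor -/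
def zi (hs : s < m) (hb : s + b < n) : Fin m × Fin n := (⟨s, hs⟩, ⟨n - 1 - s, by omega⟩)

/-- the chart -/
noncomputable def xi (hs : s < m) (hb : s + b < n) (k : Fin m × Fin n) :
    MvPowerSeries (Fin m × Fin n) ℂ :=
  if (k.1 : ℕ) = s ∧ b ≤ (k.2 : ℕ) ∧ (k.2 : ℕ) + s < n then
    ∑ i : Fin s, qv m n s b lam i * sx m n s b lam i k.2 + X (zi m n s b hs hb) * wS m n s k.2
  else sx m n s b lam k.1 k.2

theorem xi_row (hs : s < m) (hb : s + b < n) (hl : lam ≠ 0) (k : Fin m × Fin n) (hk : (k.1 : ℕ) = s) (hk2 : b ≤ (k.2 : ℕ)) :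
    xi m n s b lam hs hb k
      = ∑ i : Fin s, qv m n s b lam i * sx m n s b lam i k.2 +
        X (zi m n s b hs hb) * wS m n s k.2 := by
  rw [xi]
  by_cases h : (k.2 : ℕ) + s < n
  · rw [if_pos ⟨hk, hk2, h⟩]
  · rw [if_neg (fun h' => h h'.2.2), wS_big m n s (by omega), mul_zero, add_zero]
    have hk3 := k.2.2
    have h1 := congrFun (qv_DM m n s b lam hs hb hl) ⟨n - 1 - k.2, by omega⟩
    rw [rhs, Matrix.vecMul, dotProduct] at h1
    have h2 : n - 1 - (n - 1 - (k.2 : ℕ)) = k.2 := by omega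
    simp only [DM, Matrix.of_apply, h2] at h1
    rw [hk, ← h1]

theorem xi_other (hs : s < m) (hb : s + b < n) (k : Fin m × Fin n)
    (h : ¬ ((k.1 : ℕ) = s ∧ b ≤ (k.2 : ℕ) ∧ (k.2 : ℕ) + s < n)) :
    xi m n s b lam hs hb k = sx m n s b lam k.1 k.2 := if_neg h

theorem cc_xi (hs : s < m) (hb : s + b < n) (k : Fin m × Fin n) :
    constantCoeff (xi m n s b lam hs hb k) = bs n s b lam k.1 k.2 := by
  by_cases h : (k.1 : ℕ) = s ∧ b ≤ (k.2 : ℕ) ∧ (k.2 : ℕ) + s < n
  · rw [xi, if_pos h, map_add, map_mul, constantCoeff_X, zero_mul, add_zero, map_sum,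
      Finset.sum_eq_zero, h.1, bs_s, if_neg (by omega)]
    intro i _
    rw [map_mul, cc_qv m n s b lam hs hb, zero_mul]
  · rw [xi_other m n s b lam hs hb k h, cc_sx m n s b lam k.1.2 k.2.2]

/-- the order of the coordinates -/
noncomputable def ord (t : Fin m × Fin n) : ℕ :=
  if (t.1 : ℕ) = s ∧ b ≤ (t.2 : ℕ) ∧ (t.2 : ℕ) + 1 + s < n then m * n + 1 + finProdFinEquiv t
  else if (t.1 : ℕ) = s ∧ (t.2 : ℕ) + 1 + s = n then m * n else finProdFinEquiv t

theorem ord_inj : Function.Injective (ord m n s b) := by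
  intro t u h
  have h1 := (finProdFinEquiv t).2
  have h2 := (finProdFinEquiv u).2
  have h3 : ((finProdFinEquiv t : Fin (m * n)) : ℕ) = finProdFinEquiv u → t = u := fun h' =>
    finProdFinEquiv.injective (Fin.ext h')
  unfold ord at h
  split_ifs at h with h4 h5 h6 h7 h8 h9 h10
  all_goals first
    | exact h3 (by omega)
    | (exfalso; omega)
    | (exact Prod.ext (Fin.ext (by omega)) (Fin.ext (by omega)))

theorem der_xi_S (hs : s < m) (hb : s + b < n) (hl : lam ≠ 0) (t k : Fin m × Fin n) (ht : (t.1 : ℕ) = s)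
    (ht2 : (t.2 : ℕ) + s < n) (hk : (k.1 : ℕ) = s) (hk2 : b ≤ (k.2 : ℕ)) :
    pderiv ℂ t (xi m n s b lam hs hb k)
      = X (zi m n s b hs hb) * pderiv ℂ t (wS m n s k.2)
        + wS m n s k.2 * pderiv ℂ t (X (zi m n s b hs hb)) := by
  rw [xi_row m n s b lam hs hb hl k hk hk2, map_add, map_sum, Finset.sum_eq_zero, zero_add,
    Derivation.leibniz, smul_eq_mul, smul_eq_mul]
  intro i _
  have hi := i.2
  rw [Derivation.leibniz, der_qv m n s b lam hs hb hl t ht ht2,
    der_sx m n s b lam t _ _ (by omega), smul_zero, smul_zero, add_zero]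

theorem der_wS_zero (t : Fin m × Fin n) (c : ℕ) (h : (t.2 : ℕ) ≠ c) :
    pderiv ℂ t (wS m n s c) = 0 := by
  unfold wS
  split_ifs with h1 h2
  · exact Derivation.map_one_eq_zero _
  · rw [pderiv_X_of_ne]
    intro h3
    apply h
    rw [← h3]
  · exact map_zero _

theorem jac_entry (hs : s < m) (hb : s + b < n) (hl : lam ≠ 0) (t k : Fin m × Fin n) (hlt : ord m n s b k < ord m n s b t) :
    pderiv ℂ t (xi m n s b lam hs hb k) = 0 := by
  have hne : t ≠ k := by
    rintro rfl
    exact lt_irrefl _ hlt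
  have hb1 := (finProdFinEquiv t).2
  have hb2 := (finProdFinEquiv k).2
  by_cases h : (k.1 : ℕ) = s ∧ b ≤ (k.2 : ℕ) ∧ (k.2 : ℕ) + s < n
  · have ht : (t.1 : ℕ) = s ∧ b ≤ (t.2 : ℕ) ∧ (t.2 : ℕ) + 1 + s < n := by
      by_contra hcon
      unfold ord at hlt
      rw [if_neg hcon] at hlt
      split_ifs at hlt <;> omega
    have hne2 : (t.2 : ℕ) ≠ k.2 := by
      intro h1
      exact hne (Prod.ext (Fin.ext (by omega)) (Fin.ext h1))
    rw [der_xi_S m n s b lam hs hb hl t k ht.1 (by omega) h.1 h.2.1,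
      der_wS_zero m n s t _ hne2, mul_zero, zero_add, pderiv_X_of_ne, mul_zero]
    intro h1
    have h2 := congrArg (fun x : Fin m × Fin n => (x.2 : ℕ)) h1
    simp only [zi] at h2
    omega
  · rw [xi_other m n s b lam hs hb k h]
    refine der_sx m n s b lam t _ _ ?_
    rintro ⟨h1, h2⟩
    exact hne (Prod.ext (Fin.ext h1) (Fin.ext h2))

theorem jac_diag (hs : s < m) (hb : s + b < n) (hl : lam ≠ 0) (t : Fin m × Fin n) :
    pderiv ℂ t (xi m n s b lam hs hb t)
      = if (t.1 : ℕ) = s ∧ b ≤ (t.2 : ℕ) ∧ (t.2 : ℕ) + 1 + s < n then X (zi m n s b hs hb)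
        else 1 := by
  by_cases h : (t.1 : ℕ) = s ∧ b ≤ (t.2 : ℕ) ∧ (t.2 : ℕ) + s < n
  · rw [der_xi_S m n s b lam hs hb hl t t h.1 h.2.2 h.1 h.2.1]
    by_cases h1 : (t.2 : ℕ) + 1 + s < n
    · rw [if_pos ⟨h.1, h.2.1, h1⟩, wS_other m n s hs h1]
      have h2 : (⟨s, hs⟩, ⟨(t.2 : ℕ), by omega⟩) = t := Prod.ext (Fin.ext h.1.symm) rfl
      rw [h2, pderiv_X_self, mul_one, pderiv_X_of_ne, mul_zero, add_zero]
      intro h3
      have h4 := congrArg (fun x : Fin m × Fin n => (x.2 : ℕ)) h3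
      simp only [zi] at h4
      omega
    · rw [if_neg (fun h' => h1 h'.2.2), wS_z m n s (by omega)]
      have h2 : zi m n s b hs hb = t := Prod.ext (Fin.ext h.1.symm) (Fin.ext (by
        change n - 1 - s = t.2
        omega))
      rw [h2, pderiv_X_self, one_mul, Derivation.map_one_eq_zero, mul_zero, zero_add]
  · rw [if_neg (fun h' => h ⟨h'.1, h'.2.1, by omega⟩), xi_other m n s b lam hs hb t h, sx,
      dif_pos ⟨t.1.2, t.2.2⟩, map_add, pderiv_C, zero_add]
    exact pderiv_X_self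

theorem card_S (hs : s < m) : (Finset.univ.filter fun t : Fin m × Fin n =>
    (t.1 : ℕ) = s ∧ b ≤ (t.2 : ℕ) ∧ (t.2 : ℕ) + 1 + s < n).card = n - 1 - s - b := by
  rw [← Nat.card_Ico b (n - 1 - s)]
  refine Finset.card_nbij (fun t => (t.2 : ℕ)) ?_ ?_ ?_
  · intro t ht
    have h := (Finset.mem_filter.1 ht).2
    have h1 : (t.2 : ℕ) < n - 1 - s := by omega
    exact Finset.mem_coe.2 (Finset.mem_Ico.2 ⟨h.2.1, h1⟩)
  · intro t ht u hu htu
    have h1 := (Finset.mem_filter.1 (Finset.mem_coe.1 ht)).2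
    have h2 := (Finset.mem_filter.1 (Finset.mem_coe.1 hu)).2
    exact Prod.ext (Fin.ext (by omega)) (Fin.ext htu)
  · intro c hc
    have h := Finset.mem_Ico.1 (Finset.mem_coe.1 hc)
    exact ⟨(⟨s, hs⟩, ⟨c, by omega⟩), Finset.mem_coe.2 (Finset.mem_filter.2
      ⟨Finset.mem_univ _, rfl, h.1, by change c + 1 + s < n; omega⟩), rfl⟩

theorem jacobian (hs : s < m) (hb : s + b < n) (hl : lam ≠ 0) :
    (Matrix.of fun t i => pderiv ℂ t (xi m n s b lam hs hb i)).det
      = X (zi m n s b hs hb) ^ (n - 1 - s - b) := by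
  rw [det_upper (Matrix.of fun t i => pderiv ℂ t (xi m n s b lam hs hb i)) (ord m n s b)
    (ord_inj m n s b) fun i j hij => jac_entry m n s b lam hs hb hl i j hij]
  simp only [Matrix.of_apply, jac_diag m n s b lam hs hb hl]
  rw [Finset.prod_ite, Finset.prod_const, Finset.prod_const_one, mul_one, card_S m n s b hs]

end Chart

end Pool.Agent.Run7.h827.NE
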