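import Pool.Agent.Run7.h827.NE.Base

set_option autoImplicit false
set_option linter.unusedSectionVars false
set_option linter.unusedVariables false

/-! # Northeast ideals of maximal minors: the minors in the chart, and the Rees divisors -/

namespace Pool.Agent.Run7.h827.NE

open MvPowerSeries Pool.Agent.W574.SM Pool.Agent.Y231.RF Pool.Agent.Y228.RR Pool.Agent.R779.HK

section Minors

variable (m n s b : ℕ) (lam : ℂ)

/-- the matrix of a minor in the chart -/
noncomputable def NM (hs : s < m) (hb : s + b < n) (q : Cell m n)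
    (J : Fin ((q.1.1 : ℕ) + 1) → Fin (n - q.1.2)) :
    Matrix (Fin ((q.1.1 : ℕ) + 1)) (Fin ((q.1.1 : ℕ) + 1)) (MvPowerSeries (Fin m × Fin n) ℂ) :=
  Matrix.of fun i j => xi m n s b lam hs hb ((⟨i, by have := i.2; have := q.1.1.2; omega⟩ : Fin m),
      (⟨(q.1.2 : ℕ) + J j, by have := (J j).2; omega⟩ : Fin n))

theorem aeval_NM (hs : s < m) (hb : s + b < n) (q : Cell m n)
    (J : Fin ((q.1.1 : ℕ) + 1) → Fin (n - q.1.2)) :
    MvPolynomial.aeval (xi m n s b lam hs hb) (nmin q J) = (NM m n s b lam hs hb q J).det :=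
  aeval_nmin _ q J

/-- the minors of the larger cells are divisible by the equation of the divisor -/
theorem NM_large (hs : s < m) (hb : s + b < n) (hl : lam ≠ 0) (q : Cell m n)
    (J : Fin ((q.1.1 : ℕ) + 1) → Fin (n - q.1.2)) (h1 : s < (q.1.1 : ℕ) + 1)
    (h2 : b ≤ (q.1.2 : ℕ)) :
    (NM m n s b lam hs hb q J).det = X (zi m n s b hs hb) *
      ((NM m n s b lam hs hb q J).updateRow ⟨s, h1⟩ fun j => wS m n s ((q.1.2 : ℕ) + J j)).det := by
  refine det_comb (NM m n s b lam hs hb q J) ⟨s, h1⟩ (qv m n s b lam) _ _ fun j => ?_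
  rw [NM, Matrix.of_apply, xi_row m n s b lam hs hb hl _ rfl (by
    change b ≤ (q.1.2 : ℕ) + J j
    omega)]
  congr 1
  refine Finset.sum_congr rfl fun i _ => ?_
  have hi := i.2
  rw [Matrix.of_apply, xi_other m n s b lam hs hb _ (by
    intro h
    have h3 : (i : ℕ) = s := h.1
    omega)]

/-- the columns of a minor of order one in the larger cells, and in the smaller ones of order zero -/
noncomputable def Jl (q : Cell m n) (j : Fin ((q.1.1 : ℕ) + 1)) : Fin (n - q.1.2) :=
  ⟨n - 1 - j - q.1.2, by have := j.2; have := q.2; omega⟩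

theorem Jl_val (q : Cell m n) (j : Fin ((q.1.1 : ℕ) + 1)) :
    (q.1.2 : ℕ) + (Jl m n q j : ℕ) = n - 1 - j := by
  have := j.2
  have := q.2
  change (q.1.2 : ℕ) + (n - 1 - j - q.1.2) = n - 1 - j
  omega

theorem Jl_inj (q : Cell m n) : Function.Injective (Jl m n q) := by
  intro i j h
  have hi := i.2
  have hj := j.2
  have hq := q.2
  have h1 := Jl_val m n q i
  have h2 := Jl_val m n q j
  rw [h] at h1
  exact Fin.ext (by omega)

theorem cc_large (hs : s < m) (hb : s + b < n) (hl : lam ≠ 0) (q : Cell m n)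
    (h1 : s < (q.1.1 : ℕ) + 1) (h2 : b ≤ (q.1.2 : ℕ)) :
    constantCoeff ((NM m n s b lam hs hb q (Jl m n q)).updateRow ⟨s, h1⟩
      fun j => wS m n s ((q.1.2 : ℕ) + Jl m n q j)).det ≠ 0 := by
  have hq := q.2
  have h3 : (constantCoeff : MvPowerSeries (Fin m × Fin n) ℂ →+* ℂ).mapMatrix
      ((NM m n s b lam hs hb q (Jl m n q)).updateRow ⟨s, h1⟩
        fun j => wS m n s ((q.1.2 : ℕ) + Jl m n q j))
      = Matrix.diagonal fun i : Fin ((q.1.1 : ℕ) + 1) => if (i : ℕ) = s then 1 else lam := by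
    ext i j
    have hi := i.2
    have hj := j.2
    rw [RingHom.mapMatrix_apply, Matrix.map_apply, Matrix.updateRow_apply, Matrix.diagonal_apply]
    by_cases his : i = ⟨s, h1⟩
    · have his' : (i : ℕ) = s := congrArg Fin.val his
      rw [if_pos his, cc_wS, Jl_val, if_pos his']
      by_cases hij : i = j
      · subst hij
        rw [if_pos rfl, if_pos (by omega)]
      · rw [if_neg hij, if_neg]
        intro h4
        exact hij (Fin.ext (by omega))
    · have his' : (i : ℕ) ≠ s := fun h4 => his (Fin.ext h4)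
      rw [if_neg his, NM, Matrix.of_apply, cc_xi, if_neg his']
      change bs n s b lam (i : ℕ) ((q.1.2 : ℕ) + Jl m n q j) = _
      rw [Jl_val, bs, Equiv.swap_apply_of_ne_of_ne his' (by omega)]
      by_cases hij : i = j
      · subst hij
        rw [if_pos rfl, if_pos (by omega)]
      · rw [if_neg hij, if_neg]
        intro h4
        exact hij (Fin.ext (by omega))
  rw [RingHom.map_det, h3, Matrix.det_diagonal]
  refine Finset.prod_ne_zero_iff.2 fun i _ => ?_
  split_ifs
  · exact one_ne_zero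
  · exact hl

/-- the columns of a minor which does not vanish, smaller cells -/
theorem swap_bound (hb : s + b < n) (q : Cell m n)
    (h : ¬ (s < (q.1.1 : ℕ) + 1 ∧ b ≤ (q.1.2 : ℕ))) (j : ℕ) (hj : j < (q.1.1 : ℕ) + 1) :
    Equiv.swap s (n - b) j + 1 + (q.1.2 : ℕ) ≤ n := by
  have hq := q.2
  by_cases h1 : j = s
  · rw [h1, Equiv.swap_apply_left]
    omega
  · by_cases h2 : j = n - b
    · rw [h2, Equiv.swap_apply_right]
      omega
    · rw [Equiv.swap_apply_of_ne_of_ne h1 h2]
      omega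

theorem cc_small (hs : s < m) (hb : s + b < n) (hl : lam ≠ 0) (q : Cell m n)
    (h : ¬ (s < (q.1.1 : ℕ) + 1 ∧ b ≤ (q.1.2 : ℕ))) :
    ∃ J : Fin ((q.1.1 : ℕ) + 1) → Fin (n - q.1.2), Function.Injective J ∧
      constantCoeff (NM m n s b lam hs hb q J).det ≠ 0 := by
  have hq := q.2
  have hsw := fun j : Fin ((q.1.1 : ℕ) + 1) => swap_bound m n s b hb q h j j.2
  refine ⟨fun j => ⟨n - 1 - Equiv.swap s (n - b) j - q.1.2, by have := hsw j; omega⟩, ?_, ?_⟩
  · intro i j hij
    have h1 := congrArg Fin.val hij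
    simp only at h1
    have h2 := hsw i
    have h3 := hsw j
    exact Fin.ext ((Equiv.swap s (n - b)).injective (by omega))
  · have h3 : (constantCoeff : MvPowerSeries (Fin m × Fin n) ℂ →+* ℂ).mapMatrix
        (NM m n s b lam hs hb q fun j => ⟨n - 1 - Equiv.swap s (n - b) j - q.1.2, by
          have := hsw j; omega⟩) = Matrix.diagonal fun _ => lam := by
      ext i j
      have h4 := hsw i
      have h5 := hsw j
      rw [RingHom.mapMatrix_apply, Matrix.map_apply, NM, Matrix.of_apply, cc_xi,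
        Matrix.diagonal_apply]
      change bs n s b lam (i : ℕ) ((q.1.2 : ℕ) + (n - 1 - Equiv.swap s (n - b) j - q.1.2)) = _
      rw [bs]
      by_cases hij : i = j
      · subst hij
        rw [if_pos rfl, if_pos (by omega)]
      · rw [if_neg hij, if_neg]
        intro h6
        exact hij (Fin.ext ((Equiv.swap s (n - b)).injective (by omega)))
    rw [RingHom.map_det, h3, Matrix.det_diagonal]
    exact Finset.prod_ne_zero_iff.2 fun _ _ => hl

end Minors

section Quotients

variable (m n : ℕ) (lam : ℂ) (p : Cell m n)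

/-- the columns of the minors which give the coordinates of the divisor -/
noncomputable def Jc (c : ℕ) (hc : c < n - p.1.2) (j : Fin ((p.1.1 : ℕ) + 1)) : Fin (n - p.1.2) :=
  if (j : ℕ) = p.1.1 then ⟨c, hc⟩ else Jl m n p j

/-- the minors which give the coordinates of the divisor -/
theorem NM_Jc (hl : lam ≠ 0) (c : ℕ) (hc : c < n - p.1.2) :
    (NM m n p.1.1 p.1.2 lam p.1.1.2 p.2 p (Jc m n p c hc)).det
      = X (zi m n p.1.1 p.1.2 p.1.1.2 p.2) *
        ((DM m n p.1.1 p.1.2 lam).det * wS m n p.1.1 ((p.1.2 : ℕ) + c)) := by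
  have hp := p.2
  rw [NM_large m n p.1.1 p.1.2 lam p.1.1.2 p.2 hl p _ (Nat.lt_succ_self _) le_rfl]
  congr 1
  have hlast : (⟨(p.1.1 : ℕ), Nat.lt_succ_self _⟩ : Fin ((p.1.1 : ℕ) + 1)) = Fin.last _ := rfl
  rw [hlast, Matrix.det_succ_row _ (Fin.last _), Finset.sum_eq_single (Fin.last _)]
  · rw [Matrix.updateRow_self]
    have h1 : ((NM m n p.1.1 p.1.2 lam p.1.1.2 p.2 p (Jc m n p c hc)).updateRow
        (Fin.last (p.1.1 : ℕ)) fun j => wS m n p.1.1 ((p.1.2 : ℕ) + Jc m n p c hc j)).submatrix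
          (Fin.last (p.1.1 : ℕ)).succAbove (Fin.last (p.1.1 : ℕ)).succAbove
        = DM m n p.1.1 p.1.2 lam := by
      ext1 i j
      have hi := i.2
      have hj := j.2
      rw [Matrix.submatrix_apply, Fin.succAbove_last, Matrix.updateRow_ne (by
        intro h
        have h2 := congrArg Fin.val h
        simp only [Fin.val_castSucc, Fin.val_last] at h2
        omega), NM, Matrix.of_apply, DM, Matrix.of_apply, xi_other]
      · have h2 : (p.1.2 : ℕ) + (Jc m n p c hc (Fin.castSucc j) : ℕ) = n - 1 - j := by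
          rw [Jc, if_neg (by simp only [Fin.val_castSucc]; omega), Jl_val, Fin.val_castSucc]
        simp only [h2, Fin.val_castSucc]
      · intro h
        have h2 : (i : ℕ) = p.1.1 := h.1
        omega
    rw [h1]
    have h3 : ((-1 : MvPowerSeries (Fin m × Fin n) ℂ)) ^
        (((Fin.last (p.1.1 : ℕ) : Fin ((p.1.1 : ℕ) + 1)) : ℕ) +
          ((Fin.last (p.1.1 : ℕ) : Fin ((p.1.1 : ℕ) + 1)) : ℕ)) = 1 :=
      Even.neg_one_pow ⟨_, rfl⟩
    rw [h3, one_mul, mul_comm]
    congr 2
    rw [Jc, if_pos (Fin.val_last _)]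
  · intro j _ hj
    have hj1 : (j : ℕ) ≠ p.1.1 := fun h => hj (Fin.ext h)
    have hj2 := j.2
    rw [Matrix.updateRow_self, Jc, if_neg hj1, Jl_val, wS_big m n p.1.1 (by omega), mul_zero,
      zero_mul]
  · intro h
    exact absurd (Finset.mem_univ _) h

end Quotients

section Chart

/-- **The charts.** -/
theorem chart_exists (m n : ℕ) (p : Cell m n) (lam : ℂ) (hl : lam ≠ 0) :
    ∃ E : Chart (neGen m n), E.k = n - 1 - p.1.1 - p.1.2 ∧
      E.m = (fun q => if (p.1.1 : ℕ) ≤ q.1.1 ∧ (p.1.2 : ℕ) ≤ q.1.2 then 1 else 0) ∧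
      (E.IsRees fun q => q = p) ∧
      (∀ k, constantCoeff (E.ξ k) = bs n p.1.1 p.1.2 lam k.1 k.2) ∧
      ∃ (P : MvPolynomial (Fin m × Fin n) ℂ) (U : MvPowerSeries (Fin m × Fin n) ℂ),
        constantCoeff U ≠ 0 ∧ MvPolynomial.aeval E.ξ P = X E.z * U := by
  classical
  set s : ℕ := ((p.1.1 : Fin m) : ℕ) with hsdef
  set b : ℕ := ((p.1.2 : Fin n) : ℕ) with hbdef
  have hs : s < m := p.1.1.2
  have hb : s + b < n := p.2
  have hatt : ∀ q : Cell m n, ∃ (j0 : NI q) (U : MvPowerSeries (Fin m × Fin n) ℂ),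
      constantCoeff U ≠ 0 ∧ MvPolynomial.aeval (xi m n s b lam hs hb) (neGen m n q j0)
        = X (zi m n s b hs hb) ^ (if s ≤ q.1.1 ∧ b ≤ q.1.2 then 1 else 0) * U ∧
      (s ≤ q.1.1 ∧ b ≤ q.1.2 → ∃ e : ℂ, e * e = 1 ∧ nmin q (Jl m n q) = e • neGen m n q j0) := by
    intro q
    by_cases h : s ≤ q.1.1 ∧ b ≤ q.1.2
    · obtain ⟨j0, e, he, h1⟩ := nmin_sort q _ (Jl_inj m n q)
      have h2 := aeval_NM m n s b lam hs hb q (Jl m n q)
      rw [NM_large m n s b lam hs hb hl q _ (Nat.lt_succ_of_le h.1) h.2, h1, map_smul] at h2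
      refine ⟨j0, e • ((NM m n s b lam hs hb q (Jl m n q)).updateRow ⟨s, Nat.lt_succ_of_le h.1⟩
        fun j => wS m n s ((q.1.2 : ℕ) + Jl m n q j)).det, ?_, ?_, fun _ => ⟨e, he, h1⟩⟩
      · rw [smul_eq_C_mul, map_mul, constantCoeff_C]
        refine mul_ne_zero ?_ (cc_large m n s b lam hs hb hl q (Nat.lt_succ_of_le h.1) h.2)
        rintro rfl
        rw [zero_mul] at he
        exact zero_ne_one he
      · have h3 := congrArg (fun f => e • f) h2
        simp only [smul_smul, he, one_smul] at h3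
        rw [if_pos h, pow_one, h3, mul_smul_comm]
    · obtain ⟨J, hJ, hcc⟩ := cc_small m n s b lam hs hb hl q (fun h' =>
        h ⟨Nat.lt_succ_iff.1 h'.1, h'.2⟩)
      obtain ⟨j0, e, he, h1⟩ := nmin_sort q J hJ
      refine ⟨j0, MvPolynomial.aeval (xi m n s b lam hs hb) (neGen m n q j0), ?_, ?_,
        fun h' => absurd h' h⟩
      · have h2 := aeval_NM m n s b lam hs hb q J
        rw [h1, map_smul, smul_eq_C_mul] at h2
        intro h3
        apply hcc
        rw [← h2, map_mul, h3, mul_zero]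
      · rw [if_neg h, pow_zero, one_mul]
  choose j0 U hU hval hsort using hatt
  have hdiv : ∀ (q : Cell m n) (j : NI q), X (zi m n s b hs hb) ^
      (if s ≤ q.1.1 ∧ b ≤ q.1.2 then 1 else 0) ∣
        MvPolynomial.aeval (xi m n s b lam hs hb) (neGen m n q j) := by
    intro q j
    by_cases h : s ≤ q.1.1 ∧ b ≤ q.1.2
    · rw [if_pos h, pow_one, neGen, aeval_NM,
        NM_large m n s b lam hs hb hl q _ (Nat.lt_succ_of_le h.1) h.2]
      exact dvd_mul_right _ _
    · rw [if_neg h, pow_zero]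
      exact one_dvd _
  let E : Chart (neGen m n) :=
    { z := zi m n s b hs hb
      ξ := xi m n s b lam hs hb
      k := n - 1 - s - b
      m := fun q => if s ≤ q.1.1 ∧ b ≤ q.1.2 then 1 else 0
      j0 := j0
      jacobian := ⟨1, by rw [map_one]; exact one_ne_zero, by
        rw [mul_one]; exact jacobian m n s b lam hs hb hl⟩
      divides := hdiv
      attained := fun q => ⟨U q, hU q, hval q⟩ }
  have hJ0 : Jc m n p (n - 1 - s - b) (by omega) = Jl m n p := by
    funext j
    rw [Jc]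
    by_cases h : (j : ℕ) = p.1.1
    · rw [if_pos h]
      refine Fin.ext ?_
      change n - 1 - s - b = n - 1 - (j : ℕ) - p.1.2
      rw [h]
    · rw [if_neg h]
  have hw0 : wS m n s (b + (n - 1 - s - b)) = 1 := wS_z m n s (by omega)
  have hzU : MvPolynomial.aeval (xi m n s b lam hs hb) (nmin p (Jl m n p))
      = X (zi m n s b hs hb) * (DM m n s b lam).det := by
    rw [aeval_NM, ← hJ0]
    have h := NM_Jc m n lam p hl (n - 1 - s - b) (by omega)
    rw [hw0, mul_one] at h
    exact h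
  refine ⟨E, rfl, rfl, ?_, fun k => cc_xi m n s b lam hs hb k, ?_⟩
  swap
  · exact ⟨nmin p (Jl m n p), (DM m n s b lam).det, by
      rw [cc_det_DM m n s b lam hs hb]; exact pow_ne_zero _ hl, hzU⟩
  obtain ⟨e, he, hJe⟩ := hsort p ⟨le_rfl, le_rfl⟩
  refine ⟨fun t => X t, rfl, fun t => constantCoeff_X _, ?_, fun t ht => ?_⟩
  · have h1 : (Matrix.of fun u t : Fin m × Fin n => constantCoeff (pderiv ℂ u
        (X t : MvPowerSeries (Fin m × Fin n) ℂ))) = 1 := by
      ext u t
      rw [Matrix.of_apply, Matrix.one_apply]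
      by_cases hut : u = t
      · subst hut
        rw [if_pos rfl, pderiv_X_self, map_one]
      · rw [if_neg hut, pderiv_X_of_ne (Ne.symm hut), map_zero]
    rw [h1, Matrix.det_one]
    exact one_ne_zero
  · by_cases h : (t.1 : ℕ) = s ∧ b ≤ (t.2 : ℕ) ∧ (t.2 : ℕ) + s < n
    · right
      have htz : (t.2 : ℕ) + 1 + s < n := by
        by_contra hcon
        apply ht
        refine Prod.ext (Fin.ext h.1) (Fin.ext ?_)
        change (t.2 : ℕ) = n - 1 - s
        omega
      have hc : (t.2 : ℕ) - b < n - p.1.2 := by have := t.2.2; omega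
      obtain ⟨v, hv⟩ := nmin_span p (Jc m n p ((t.2 : ℕ) - b) hc)
      refine ⟨p, rfl, fun j => e * v j, ?_⟩
      have h1 := NM_Jc m n lam p hl ((t.2 : ℕ) - b) hc
      rw [← aeval_NM, hv, map_sum] at h1
      have h2 : (p.1.2 : ℕ) + ((t.2 : ℕ) - b) = t.2 := by omega
      have h3 : wS m n s (t.2 : ℕ) = X t := by
        rw [wS_other m n s hs htz]
        congr 1
        exact Prod.ext (Fin.ext h.1.symm) rfl
      rw [h2] at h1
      change _ = X (zi m n s b hs hb) * ((DM m n s b lam).det * wS m n s (t.2 : ℕ)) at h1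
      rw [h3, ← mul_assoc, ← hzU, hJe, map_smul] at h1
      have h5 := congrArg (fun f => e • f) h1
      simp only [map_smul, Finset.smul_sum, smul_smul, smul_mul_assoc, he, one_smul] at h5
      exact h5
    · left
      refine ⟨MvPolynomial.X t - MvPolynomial.C (bs n s b lam t.1 t.2), ?_⟩
      rw [map_sub, MvPolynomial.aeval_X, MvPolynomial.aeval_C]
      change xi m n s b lam hs hb t - C _ = X t
      rw [xi_other m n s b lam hs hb t h, sx, dif_pos ⟨t.1.2, t.2.2⟩, add_sub_cancel_left]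

end Chart

end Pool.Agent.Run7.h827.NE
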