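import Pool.Agent.Run7.h827.NE.Chart
import Pool.Agent.Run7.h827.HM.Gen

set_option autoImplicit false
set_option linter.unusedSectionVars false
set_option linter.unusedVariables false

/-! # Forms over products of northeast ideals of maximal minors -/

namespace Pool.Agent.Run7.h827.NE

open Pool.Agent.W574.SM Pool.Agent.Y231.RF Pool.Agent.Y228.RR Pool.Agent.TH192.DT
  Pool.Agent.H628R4.TP Pool.Agent.W574.LM Pool.Agent.R779.HK Pool.Agent.R852.BM
  Pool.Agent.Run7.h827.HM

variable {T : Type} [Fintype T] [DecidableEq T]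

/-- `p ≤ q` in both coordinates: the ideal of `q` vanishes on the divisor `E_p`. -/
def le {m n : ℕ} (p q : Cell m n) : Prop := (p.1.1 : ℕ) ≤ q.1.1 ∧ (p.1.2 : ℕ) ≤ q.1.2

instance {m n : ℕ} (p q : Cell m n) : Decidable (le p q) := by
  unfold le
  infer_instance

/-- The generators of the product of the powers `I_q ^ e q` of the northeast ideals: the products of
maximal minors, `e q` of them of the matrix of the cell `q`, for each `q`. -/
noncomputable def neProd (m n : ℕ) (e : Cell m n → ℕ) :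
    ((x : Σ q : Cell m n, Fin (e q)) → NI x.1) → MvPolynomial (Fin m × Fin n) ℂ :=
  mixFam (neGen m n) e

/-- The numbers `ν = n - i - j` of the divisors `E_p`, `p = (i, j)`, and `ν = 1` for the strict
transforms. -/
def nuN (m n : ℕ) (T : Type) : Cell m n ⊕ T → ℕ :=
  Sum.elim (fun p => n - 1 - p.1.1 - p.1.2 + 1) fun _ => 1

/-- The multiplicities of `∏ t, F_t ^ a t`, `F_t` the form over `∏ q, I_q ^ e t q`:
`∑ t, a t * ∑ q, e t q`, the second sum over the `q ≥ p`, along `E_p`, and `a t` along the strict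
transform of `F_t = 0`. -/
def mulN (m n : ℕ) (e : T → Cell m n → ℕ) (a : T → ℕ) : Cell m n ⊕ T → ℕ :=
  Sum.elim (fun p => ∑ t, a t * ∑ q, e t q * if le p q then 1 else 0) a

/-- The vectors of multiplicities of the tuple `(F_t)`. -/
def vecN (m n : ℕ) (e : T → Cell m n → ℕ) : Cell m n ⊕ T → T → ℕ :=
  mulT fun (p : Cell m n) t => ∑ q, e t q * if le p q then 1 else 0

theorem nuN_eq (m n : ℕ) : nuN m n T = nuG (fun p : Cell m n => n - 1 - p.1.1 - p.1.2) T := rfl

theorem mulN_eq (m n : ℕ) (e : T → Cell m n → ℕ) (a : T → ℕ) :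
    mulN m n e a = mulG (fun p q : Cell m n => if le p q then 1 else 0) e a := rfl

theorem nuN_pos (m n : ℕ) (x : Cell m n ⊕ T) : 0 < nuN m n T x := nuG_pos _ x

theorem ne_ne (m n : ℕ) (q : Cell m n) : ∃ j, neGen m n q j ≠ 0 := by
  obtain ⟨E, -, -, -, -, -⟩ := chart_exists m n q 1 one_ne_zero
  refine ⟨E.j0 q, fun h => ?_⟩
  obtain ⟨U, hU, h1⟩ := E.attained q
  rw [h, map_zero] at h1
  have h2 : U = 0 := by
    rcases mul_eq_zero.1 h1.symm with h3 | h3
    · exact absurd h3 (pow_ne_zero _ (X_ne0 _))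
    · exact h3
  rw [h2, map_zero] at hU
  exact hU rfl

/-- the charts at the general points of the divisors -/
theorem hasChart (m n : ℕ) (p : Cell m n) (A : Cell m n → Prop) (hp : A p) :
    HasChart (neGen m n) (n - 1 - p.1.1 - p.1.2) (fun q => if le p q then 1 else 0) A := by
  intro H hH
  obtain ⟨lam, hl, hlH⟩ := exists_mul
    (fun k : Fin m × Fin n => bs n p.1.1 p.1.2 1 k.1 k.2) H hH
  obtain ⟨E, hk, hm, hR, hcc, P, U, hU, hP⟩ := chart_exists m n p lam hl
  refine ⟨E, hk, ?_, isRees_mono (fun s hs => by rw [hs]; exact hp) hR, ?_, P, U, hU, hP⟩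
  · rw [hm]
    rfl
  · rw [Pool.Agent.TH192.DT.cc_aeval]
    simp only [hcc]
    have h1 : (fun k : Fin m × Fin n => bs n p.1.1 p.1.2 lam k.1 k.2)
        = fun k => lam * bs n p.1.1 p.1.2 1 k.1 k.2 := by
      funext k
      unfold bs
      split_ifs
      · rw [mul_one]
      · rw [mul_zero]
    rw [h1]
    exact hlH

/-- The set of the cells `q` whose ideals `I_q` occur in `f` (`a t ≠ 0` and `e t q ≠ 0` for some `t`) is
closed downwards: it contains with `q` all the cells `p ≤ q`. -/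
def Down {m n : ℕ} (e : T → Cell m n → ℕ) (a : T → ℕ) : Prop :=
  ∀ p q : Cell m n, le p q → (∃ t, a t ≠ 0 ∧ e t q ≠ 0) → ∃ t, a t ≠ 0 ∧ e t p ≠ 0

theorem charts (m n : ℕ) (e : T → Cell m n → ℕ) (a : T → ℕ) (hd : Down e a) (p : Cell m n)
    (hpos : 0 < mulG (fun p q : Cell m n => if le p q then 1 else 0) e a (Sum.inl p)) :
    HasChart (neGen m n) (n - 1 - p.1.1 - p.1.2) (fun q => if le p q then 1 else 0) (Occ e a) := by
  obtain ⟨t, -, ht⟩ := Finset.exists_ne_zero_of_sum_ne_zero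
    (show (∑ t, a t * ∑ q, e t q * if le p q then 1 else 0) ≠ 0 from hpos.ne')
  obtain ⟨q, -, hq⟩ := Finset.exists_ne_zero_of_sum_ne_zero (right_ne_zero_of_mul ht)
  have hle : le p q := by
    by_contra h
    rw [if_neg h, mul_zero] at hq
    exact hq rfl
  exact hasChart m n p _ (hd p q hle ⟨t, left_ne_zero_of_mul ht, left_ne_zero_of_mul hq⟩)

/-- **The roots.** -/
theorem ne_roots (m n : ℕ) (e : T → Cell m n → ℕ) (a : T → ℕ) (hd : Down e a)
    (b : Polynomial ℂ) (hb : IsBFunction (powProd a fun t => neProd m n (e t)) b ∨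
      IsLocalBFunction (powProd a fun t => neProd m n (e t)) b)
    (x : Cell m n ⊕ T) (l : ℕ) (hl : l < mulN m n e a x) :
    b.eval (-((nuN m n T x : ℂ) + l) / mulN m n e a x) = 0 :=
  gen_roots (neGen m n) (ne_ne m n) _ _ e a (charts m n e a hd) b hb x l hl

theorem ne_set (m n : ℕ) (e : T → Cell m n → ℕ) (a : T → ℕ) (hd : Down e a) :
    ∃ 𝒮 : Finset (ℤ × ℤ), (∀ (R : Type) [CommRing R] (u : Rˣ)
        (χ : Finset {x // 0 < mulN m n e a x} → R),
        dlZ u (nuN m n T) (mulN m n e a) χ ∈ ratU u (𝒮 : Set (ℤ × ℤ))) ∧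
      ∀ q ∈ 𝒮, q.1 < 0 ∧ 0 < q.2 ∧ ∀ b : Polynomial ℂ,
        (IsBFunction (powProd a fun t => neProd m n (e t)) b ∨
          IsLocalBFunction (powProd a fun t => neProd m n (e t)) b) →
        b.eval ((q.1 : ℂ) / q.2) = 0 :=
  gen_set (neGen m n) (ne_ne m n) _ _ e a (charts m n e a hd)

theorem ne_mot (m n : ℕ) (e : T → Cell m n → ℕ) (a : T → ℕ) (hd : Down e a)
    (R : Type) [CommRing R] (u : Rˣ) (χ : Finset {x // 0 < mulN m n e a x} → R)
    (b : Polynomial ℂ) (hb : IsBFunction (powProd a fun t => neProd m n (e t)) b ∨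
      IsLocalBFunction (powProd a fun t => neProd m n (e t)) b) :
    dlZ u (nuN m n T) (mulN m n e a) χ ∈ ratU u (RootPairs b) :=
  gen_mot (neGen m n) (ne_ne m n) _ _ e a (charts m n e a hd) R u χ b hb

theorem ne_tuple (m n : ℕ) (e : T → Cell m n → ℕ)
    (hd : ∀ p q : Cell m n, le p q → (∃ t, e t q ≠ 0) → ∃ t, e t p ≠ 0)
    (χ : Finset (Cell m n ⊕ T) → ℤ) (z : T → ℂ)
    (hz : z ∈ PolarLocus (topM (nuN m n T) (vecN m n e) χ)) :
    ∃ x, ∑ t, (vecN m n e x t : ℂ) * z t + (nuN m n T x : ℂ) = 0 ∧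
      ∀ k : T → ℕ, (∀ t, 0 < k t) → 0 < ∑ t, k t * vecN m n e x t ∧
        ∀ b : Polynomial ℂ, IsBFunction (powProd k fun t => neProd m n (e t)) b →
          ∀ l : ℕ, l < ∑ t, k t * vecN m n e x t →
            b.eval (-((nuN m n T x : ℂ) + l) / (∑ t, k t * vecN m n e x t : ℕ)) = 0 := by
  refine gen_tuple (neGen m n) (ne_ne m n) _ _ e (fun p hp => ?_) χ z hz
  obtain ⟨t, q, hq⟩ := hp
  have hle : le p q := by
    by_contra h
    rw [if_neg h, mul_zero] at hq
    exact hq rfl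
  exact hasChart m n p _ (hd p q hle ⟨t, left_ne_zero_of_mul hq⟩)

/-- the numbers of the components of the principalization of `∏ q, I_q ^ e q` -/
def nuJ (m n : ℕ) (p : Cell m n) : ℕ := n - 1 - p.1.1 - p.1.2 + 1

/-- the multiplicities of `∏ q, I_q ^ e q` -/
def mulJ (m n : ℕ) (e : Cell m n → ℕ) (p : Cell m n) : ℕ :=
  ∑ q, e q * if le p q then 1 else 0

theorem one_roots (m n : ℕ) (e : Cell m n → ℕ)
    (hd : ∀ p q : Cell m n, le p q → e q ≠ 0 → e p ≠ 0) (b : Polynomial ℂ)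
    (H : MvPolynomial (Fin m × Fin n) ℂ) (hH : MvPolynomial.constantCoeff H ≠ 0)
    (hb : Pool.Agent.W574.LM.IsLocEq H (neProd m n e) b)
    (p : Cell m n) (l : ℕ) (hl : l < mulJ m n e p) :
    b.eval (-((nuJ m n p : ℂ) + l) / mulJ m n e p) = 0 := by
  obtain ⟨q, -, hq⟩ := Finset.exists_ne_zero_of_sum_ne_zero
    (show (∑ q, e q * if le p q then 1 else 0) ≠ 0 from Nat.ne_zero_of_lt hl)
  have hle : le p q := by
    by_contra h
    rw [if_neg h, mul_zero] at hq
    exact hq rfl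
  exact gen_one_roots (neGen m n) _ _ e
    (hasChart m n p _ (hd p q hle (left_ne_zero_of_mul hq))) b H hH hb l hl

end Pool.Agent.Run7.h827.NE
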